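import Pool.Agent.helper83.LE.SpecB
import Pool.Agent.helper24.FI4.CNO

/-!
Project LE (MP_baa4d7_al), block BOUND-L, row CN2: port of `helper24/FI4/CNO.lean`. Seat helper85.
-/

set_option autoImplicit false

namespace Pool.Agent.LE

open Pool.Agent.helper58.DC Pool.Agent.DI Pool.Agent.GR Pool.Agent.OB Pool.Agent.DR Pool.Agent.FI Pool.Agent.FI3 Pool.Agent.FI4 Pool.Agent.FI4C

theorem CN2 (hQCN : QCNc_stmt) (hQFU : QFUc_stmt) (hOM2 : OM2_stmt) (hFEQ : FEQ_stmt) : CN2_stmt := by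
  intro p M hS G _ _ D x θ χ lo m hm y hy hy1 ψ hψ hsb w hw hcon
  have hQ := hQCN p M hS G D x θ χ lo ⊥ bot_le y
  rw [CNO_czbot] at hQ
  obtain ⟨l, _, hlD, hl⟩ := hQ trivial hy ψ hψ hsb
  -- the conjugated element
  have hcop := hm.cop
  have hK : cjS l (Cz (⊤ : Subgroup G) y) = Cz (⊤ : Subgroup G) (l * y * l⁻¹) := by
    have h := (hFEQ G M l 1 ⊥ ⊥ (⊤ : Subgroup G) ψ ψ χ).2.2.1 y
    rwa [CNO_top] at h
  have hwu : (l * w * l⁻¹) * (l * y * l⁻¹) * (l * w * l⁻¹)⁻¹ = (l * y * l⁻¹) ^ m := by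
    have h1 : (l * w * l⁻¹) * (l * y * l⁻¹) * (l * w * l⁻¹)⁻¹ = l * (w * y * w⁻¹) * l⁻¹ := by group
    rw [h1, hw, conj_pow]
  have hψ1 : cjF l ψ ∈ IrrOn (Cz (⊤ : Subgroup G) (l * y * l⁻¹)) := by
    have h := ((hFEQ G M l 1 ⊥ ⊥ (Cz (⊤ : Subgroup G) y) ψ ψ χ).2.2.2.1).1 hψ
    rwa [hK] at h
  have hF := hQFU p M hS G D x θ χ lo ⊥ bot_le (l * y * l⁻¹) hlD (l * w * l⁻¹)
  rw [CNO_czbot, hwu, CNO_Cz hcop] at hF
  have hsb2 : SB M (Cz (⊤ : Subgroup G) (l * y * l⁻¹)) θ (cjF (l * w * l⁻¹) (cjF l ψ)) := by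
    have h1 := ((hFEQ G M l 1 ⊥ ⊥ (Cz (⊤ : Subgroup G) y) (cjF w ψ) ψ χ).2.2.2.2.1).1 hcon
    rw [hK] at h1
    have e1 := (hFEQ G M l w ⊥ ⊥ ⊥ ψ ψ χ).1.2.1
    have e2 := (hFEQ G M (l * w * l⁻¹) l ⊥ ⊥ ⊥ ψ ψ χ).1.2.1
    have e3 : l * w * l⁻¹ * l = l * w := by group
    rw [e2, e3, ← e1]
    exact hl.trans h1.symm
  obtain ⟨k, hk, hkt⟩ := hF trivial (D.pow_mem hlD m) (cjF l ψ) hψ1 hl hsb2
  -- the element `t`
  have hk' : (l * y * l⁻¹) * k = k * (l * y * l⁻¹) := CNO_mem.1 hk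
  have ht : (k * (l * w * l⁻¹)) * (l * y * l⁻¹) * (k * (l * w * l⁻¹))⁻¹ = (l * y * l⁻¹) ^ m := by
    have h1 : (k * (l * w * l⁻¹)) * (l * y * l⁻¹) * (k * (l * w * l⁻¹))⁻¹ =
        k * ((l * w * l⁻¹) * (l * y * l⁻¹) * (l * w * l⁻¹)⁻¹) * k⁻¹ := by group
    rw [h1, hwu]
    have h2 : Commute (l * y * l⁻¹) k := hk'
    have h3 : (l * y * l⁻¹) ^ m * k = k * (l * y * l⁻¹) ^ m := h2.pow_left m
    rw [← h3, mul_inv_cancel_right]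
  obtain ⟨hi0, hti⟩ := CNO_TT hkt
  have hpow := CNO_conj ht (iI M D θ)
  have hfix : (l * y * l⁻¹) ^ (m ^ iI M D θ) = (l * y * l⁻¹) ^ 1 := by
    rw [← hpow, pow_one]
    rw [Subgroup.mem_centralizer_iff] at hti
    have h1 := hti _ hlD
    rw [← h1, mul_inv_cancel_right]
  rw [pow_eq_pow_iff_modEq] at hfix
  -- the order
  have hp : p.Prime := hS.1
  obtain ⟨a, ha⟩ := hy
  have hpa : (l * y * l⁻¹) ^ p ^ a = 1 := by
    rw [conj_pow, ha]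
    group
  have h1 := orderOf_dvd_of_pow_eq_one hpa
  rw [Nat.dvd_prime_pow hp] at h1
  obtain ⟨b, _, hb⟩ := h1
  rw [hb] at hfix
  have hbG : p ^ b ∣ Nat.card G := by
    rw [← hb]
    exact orderOf_dvd_natCard _
  have hb1 : b ≤ 1 := hOM2 p (Nat.card G) m (iI M D θ) b hp hm lo.bet hbG hfix
  apply hy1
  have h2 : (l * y * l⁻¹) ^ p = 1 := by
    rw [← orderOf_dvd_iff_pow_eq_one, hb]
    calc p ^ b ∣ p ^ 1 := pow_dvd_pow p hb1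
      _ = p := pow_one p
  rw [conj_pow] at h2
  have h3 : y ^ p = l⁻¹ * (l * y ^ p * l⁻¹) * l := by group
  rw [h3, h2]
  group

end Pool.Agent.LE
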